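import Mathlib

set_option autoImplicit false

namespace Pool.Agent.H39.PiLength

open Subgroup

/-- `HasSeries π G n`: the finite group `G` has a normal series with `π'`-factors and at most `n`
nilpotent `π`-factors. -/
def HasSeries (π : Set ℕ) (G : Type) [Group G] (n : ℕ) : Prop :=
  ∃ (k : ℕ) (s : ℕ → Subgroup G) (T : Finset ℕ), T.card ≤ n ∧
        s 0 = ⊥ ∧ s k = ⊤ ∧ (∀ i ≤ k, (s i).Normal) ∧ (∀ i < k, s i ≤ s (i + 1)) ∧
        ∀ i < k, (∀ q : ℕ, q.Prime → q ∣ Nat.card (s (i + 1)) / Nat.card (s i) → q ∉ π) ∨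
          (i ∈ T ∧ (∀ q : ℕ, q.Prime → q ∣ Nat.card (s (i + 1)) / Nat.card (s i) → q ∈ π) ∧
            ∃ c : ℕ, (fun K : Subgroup G => ⁅K, s (i + 1)⁆)^[c] (s (i + 1)) ≤ s i)

theorem card_div_card {G : Type} [Group G] [Finite G] {A B : Subgroup G} (h : A ≤ B) :
    Nat.card B / Nat.card A = A.relIndex B := by
  have h1 : (⊥ : Subgroup G).relIndex A * A.relIndex B = (⊥ : Subgroup G).relIndex B :=
    relIndex_mul_relIndex ⊥ A B bot_le h
  rw [relIndex_bot_left, relIndex_bot_left] at h1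
  rw [← h1]
  exact Nat.mul_div_cancel_left _ Nat.card_pos

theorem ratio_dvd {G Q : Type} [Group G] [Group Q] [Finite G] [Finite Q] (f : G →* Q)
    {A B : Subgroup G} [A.Normal] (h : A ≤ B) :
    Nat.card (B.map f) / Nat.card (A.map f) ∣ Nat.card B / Nat.card A := by
  rw [card_div_card h, card_div_card (Subgroup.map_mono h), relIndex_map_map]
  have h2 : B ⊔ f.ker = B ⊔ (A ⊔ f.ker) := by
    rw [← sup_assoc, sup_eq_left.mpr h]
  rw [h2, relIndex_sup_right]
  exact relIndex_dvd_of_le_left _ le_sup_left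

theorem iter_eq {G : Type} [Group G] (L : Subgroup G) (c : ℕ) :
    (fun K : Subgroup G => ⁅K, L⁆)^[c] L = L.lowerCentralSeries c := by
  induction c with
  | zero => rfl
  | succ n ih => rw [Function.iterate_succ_apply', ih]; rfl

theorem HasSeries.map {π : Set ℕ} {G Q : Type} [Group G] [Group Q] [Finite G] [Finite Q]
    (f : G →* Q) (hf : Function.Surjective f) {n : ℕ} (h : HasSeries π G n) :
    HasSeries π Q n := by
  obtain ⟨k, s, T, hT, h0, hk, hn, hm, hs⟩ := h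
  refine ⟨k, fun i => (s i).map f, T, hT, ?_, ?_, ?_, ?_, ?_⟩
  · simp [h0]
  · simp only [hk]
    exact Subgroup.map_top_of_surjective f hf
  · intro i hi
    exact (hn i hi).map f hf
  · intro i hi
    exact Subgroup.map_mono (hm i hi)
  · intro i hi
    have := hn i hi.le
    have hd := ratio_dvd f (hm i hi)
    rcases hs i hi with h1 | ⟨h1, h2, c, h3⟩
    · left
      intro q hq hqd
      exact h1 q hq (hqd.trans hd)
    · right
      refine ⟨h1, fun q hq hqd => h2 q hq (hqd.trans hd), c, ?_⟩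
      rw [iter_eq] at h3 ⊢
      rw [← map_lowerCentralSeries]
      exact Subgroup.map_mono h3

/-- Dropping the first nilpotent `π`-factor. -/
theorem HasSeries.drop {π : Set ℕ} {G Q : Type} [Group G] [Group Q] [Finite G] [Finite Q]
    (f : G →* Q) (hf : Function.Surjective f) {n : ℕ} (h : HasSeries π G (n + 1))
    (h1 : ∀ M : Subgroup G, M.Normal → (∀ q : ℕ, q.Prime → q ∣ Nat.card M → q ∉ π) → M = ⊥)
    (h2 : ∀ M : Subgroup G, M.Normal → Group.IsNilpotent M → M ≤ f.ker) (hG : Nontrivial G) :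
    HasSeries π Q n := by
  classical
  obtain ⟨k, s, T, hT, h0, hk, hn, hm, hs⟩ := h
  have hex : ∃ i, s i ≠ ⊥ := ⟨k, by rw [hk]; exact top_ne_bot⟩
  obtain ⟨j, hj⟩ : ∃ j, Nat.find hex = j + 1 := by
    refine Nat.exists_eq_succ_of_ne_zero ?_
    intro h
    have := Nat.find_spec hex
    rw [h] at this
    exact this h0
  have hj1 : s (j + 1) ≠ ⊥ := by rw [← hj]; exact Nat.find_spec hex
  have hj0 : s j = ⊥ := by
    by_contra hcon
    have := Nat.find_min' hex hcon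
    omega
  have hjk : j < k := by
    have := Nat.find_min' hex (m := k) (by rw [hk]; exact top_ne_bot)
    omega
  have hnj := hn (j + 1) hjk
  have hstep := hs j hjk
  rw [hj0] at hstep
  have hcard : Nat.card (s (j + 1)) / Nat.card (⊥ : Subgroup G) = Nat.card (s (j + 1)) := by
    simp
  rw [hcard] at hstep
  rcases hstep with hstep | ⟨hjT, -, c, hc⟩
  · exact absurd (h1 _ hnj hstep) hj1
  · rw [iter_eq, le_bot_iff] at hc
    have hle : s (j + 1) ≤ f.ker := h2 _ hnj (isNilpotent_of_lowerCentralSeries_eq_bot hc)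
    refine ⟨k, fun i => (s i).map f, T.erase j, ?_, ?_, ?_, ?_, ?_, ?_⟩
    · rw [Finset.card_erase_of_mem hjT]
      omega
    · simp [h0]
    · simp only [hk]
      exact Subgroup.map_top_of_surjective f hf
    · intro i hi
      exact (hn i hi).map f hf
    · intro i hi
      exact Subgroup.map_mono (hm i hi)
    · intro i hi
      have := hn i hi.le
      have hd := ratio_dvd f (hm i hi)
      by_cases hij : i = j
      · left
        intro q hq hqd
        exfalso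
        subst hij
        have e1 : (s (i + 1)).map f = ⊥ := (Subgroup.map_eq_bot_iff _).mpr hle
        have e2 : (s i).map f = ⊥ := by rw [hj0]; simp
        simp only [e1, e2] at hqd
        simp at hqd
        exact hq.one_lt.ne' hqd
      · rcases hs i hi with h1 | ⟨h1, h2, c, h3⟩
        · left
          intro q hq hqd
          exact h1 q hq (hqd.trans hd)
        · right
          refine ⟨Finset.mem_erase.mpr ⟨hij, h1⟩, fun q hq hqd => h2 q hq (hqd.trans hd), c, ?_⟩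
          rw [iter_eq] at h3 ⊢
          rw [← map_lowerCentralSeries]
          exact Subgroup.map_mono h3

theorem HasSeries.zero {π : Set ℕ} {G : Type} [Group G] [Finite G] (h : HasSeries π G 0)
    {q : ℕ} (hq : q.Prime) (hqπ : q ∈ π) : ¬ q ∣ Nat.card G := by
  obtain ⟨k, s, T, hT, h0, hk, hn, hm, hs⟩ := h
  have hTe : T = ∅ := by
    rw [← Finset.card_eq_zero]; omega
  have key : ∀ i ≤ k, ¬ q ∣ Nat.card (s i) := by
    intro i
    induction i with
    | zero =>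
      intro _
      rw [h0]
      simp
      exact hq.one_lt.ne'
    | succ i ih =>
      intro hi hd
      have hi' : i < k := hi
      have hmi := hm i hi'
      have e : Nat.card (s i) * (s i).relIndex (s (i + 1)) = Nat.card (s (i + 1)) := by
        have h1 : (⊥ : Subgroup G).relIndex (s i) * (s i).relIndex (s (i + 1))
          = (⊥ : Subgroup G).relIndex (s (i + 1)) :=
          relIndex_mul_relIndex ⊥ _ _ bot_le hmi
        rwa [relIndex_bot_left, relIndex_bot_left] at h1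
      rw [← e] at hd
      rcases hs i hi' with h1 | ⟨h1, -⟩
      · rcases (hq.dvd_mul).mp hd with h2 | h2
        · exact ih hi'.le h2
        · rw [← card_div_card hmi] at h2
          exact h1 q hq h2 hqπ
      · rw [hTe] at h1
        simp at h1
  have := key k le_rfl
  rw [hk] at this
  simpa using this

/-- `Ext p f`: `f` is a split epimorphism onto `Q` whose kernel is a self-centralizing
`p`-group. -/
structure IsExt (p : ℕ) {G Q : Type} [Group G] [Group Q] (f : G →* Q) (σ : Q →* G) : Prop where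
  sec : ∀ x, f (σ x) = x
  pgroup : IsPGroup p f.ker
  central : ∀ g : G, (∀ n ∈ f.ker, g * n = n * g) → g ∈ f.ker
  nontriv : Nontrivial G

theorem IsExt.surj {p : ℕ} {G Q : Type} [Group G] [Group Q] {f : G →* Q} {σ : Q →* G}
    (h : IsExt p f σ) : Function.Surjective f := fun x => ⟨σ x, h.sec x⟩

theorem exists_ext (Q : Type) [Group Q] [Finite Q] (p : ℕ) (hp : p.Prime) :
    ∃ (G : Type) (_ : Group G) (_ : Finite G) (f : G →* Q) (σ : Q →* G), IsExt p f σ := by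
  have : Fact p.Prime := ⟨hp⟩
  have : Nontrivial (Multiplicative (ZMod p)) := inferInstanceAs (Nontrivial (ZMod p))
  refine ⟨RegularWreathProduct (Multiplicative (ZMod p)) Q, inferInstance, inferInstance,
    RegularWreathProduct.rightHom, RegularWreathProduct.inl, ?_, ?_, ?_, ?_⟩
  · intro x; rfl
  · intro g
    refine ⟨1, ?_⟩
    obtain ⟨⟨l, r⟩, hg⟩ := g
    have hr : r = 1 := hg
    subst hr
    have hpow : ∀ n : ℕ, (⟨l, 1⟩ : RegularWreathProduct (Multiplicative (ZMod p)) Q) ^ n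
        = ⟨l ^ n, 1⟩ := by
      intro n
      induction n with
      | zero => rw [pow_zero, pow_zero]; rfl
      | succ n ih =>
        rw [pow_succ, ih, RegularWreathProduct.mul_def, pow_succ]
        congr 1
        · simp
        · simp
    apply Subtype.ext
    rw [Subgroup.coe_pow]
    simp only [pow_one]
    rw [hpow]
    have : l ^ p = 1 := by
      funext x
      have := pow_card_eq_one' (G := Multiplicative (ZMod p)) (x := l x)
      rw [Nat.card_eq_fintype_card] at this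
      simpa [ZMod.card] using this
    rw [this]
    rfl
  · rintro ⟨l, r⟩ hg
    change r = 1
    classical
    obtain ⟨d, hd⟩ := exists_ne (1 : Multiplicative (ZMod p))
    have := hg ⟨Pi.mulSingle 1 d, 1⟩ rfl
    rw [RegularWreathProduct.mul_def, RegularWreathProduct.mul_def] at this
    have h1 := congrArg RegularWreathProduct.left this
    have h2 := congrFun h1 r
    simp at h2
    by_contra hr
    rw [Pi.mulSingle_apply, if_neg hr] at h2
    rw [mul_comm] at h2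
    simp at h2
    exact hd h2
  · obtain ⟨d, hd⟩ := exists_ne (1 : Multiplicative (ZMod p))
    refine ⟨⟨fun _ => d, 1⟩, 1, ?_⟩
    intro h
    have := congrFun (congrArg RegularWreathProduct.left h) 1
    exact hd this


theorem IsExt.trivial_of_not_dvd {p : ℕ} {G Q : Type} [Group G] [Group Q] [Finite G]
    {f : G →* Q} {σ : Q →* G} (h : IsExt p f σ) (hp : p.Prime) (M : Subgroup G) (hM : M.Normal)
    (hd : ¬ p ∣ Nat.card M) : M = ⊥ := by
  have : Fact p.Prime := ⟨hp⟩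
  obtain ⟨n, hn⟩ := h.pgroup.exists_card_eq
  have hdis : M ⊓ f.ker = ⊥ := by
    rw [← disjoint_iff]
    apply disjoint_of_coprime_natCard
    rw [hn]
    apply Nat.Coprime.pow_right
    exact ((Nat.Prime.coprime_iff_not_dvd hp).mpr hd).symm
  have hle : M ≤ f.ker := by
    intro g hg
    apply h.central
    intro n hn
    have := Subgroup.commute_of_normal_of_disjoint M f.ker hM inferInstance
      (disjoint_iff.mpr hdis) g n hg hn
    exact this
  rw [← hdis]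
  exact (inf_eq_left.mpr hle).symm

theorem IsExt.pcore_trivial {p r : ℕ} {G Q : Type} [Group G] [Group Q] [Finite G]
    {f : G →* Q} {σ : Q →* G} (h : IsExt r f σ) (hr : r.Prime) (hp : p.Prime) (hpr : r ≠ p)
    (M : Subgroup G) (hM : M.Normal) (hMp : IsPGroup p M) : M = ⊥ := by
  have : Fact p.Prime := ⟨hp⟩
  obtain ⟨n, hn⟩ := hMp.exists_card_eq
  apply h.trivial_of_not_dvd hr M hM
  rw [hn]
  intro hd
  exact hpr ((Nat.prime_dvd_prime_iff_eq hr hp).mp (hr.dvd_of_dvd_pow hd))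

theorem IsExt.nilpotent_le {p : ℕ} {G Q : Type} [Group G] [Group Q] [Finite G] [Finite Q]
    {f : G →* Q} {σ : Q →* G} (h : IsExt p f σ) (hp : p.Prime)
    (hQ : ∀ M : Subgroup Q, M.Normal → IsPGroup p M → M = ⊥)
    (M : Subgroup G) (hM : M.Normal) (hMn : Group.IsNilpotent M) : M ≤ f.ker := by
  have : Fact p.Prime := ⟨hp⟩
  have key : ∀ l : ℕ, l.Prime → l ∣ Nat.card M → l = p := by
    intro l hl hd
    by_contra hne
    have : Fact l.Prime := ⟨hl⟩
    obtain ⟨P⟩ : Nonempty (Sylow l M) := inferInstance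
    have hPn : (P : Subgroup M).Normal := inferInstance
    have hPc : (P : Subgroup M).Characteristic := Sylow.characteristic_of_normal P hPn
    have hPG : ((P : Subgroup M).map M.subtype).Normal := inferInstance
    have hcard : Nat.card ((P : Subgroup M).map M.subtype) = Nat.card (P : Subgroup M) :=
      (Nat.card_congr ((P : Subgroup M).equivMapOfInjective M.subtype
        M.subtype_injective).toEquiv).symm
    have htriv : (P : Subgroup M).map M.subtype = ⊥ := by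
      apply h.trivial_of_not_dvd hp _ hPG
      rw [hcard]
      obtain ⟨n, hn⟩ := P.isPGroup'.exists_card_eq
      rw [hn]
      intro hd
      exact hne ((Nat.prime_dvd_prime_iff_eq hp hl).mp (hp.dvd_of_dvd_pow hd)).symm
    have h1 : Nat.card (P : Subgroup M) = 1 := by
      rw [← hcard, htriv]; simp
    have h2 := P.dvd_card_of_dvd_card hd
    rw [h1] at h2
    exact hl.one_lt.ne' (Nat.dvd_one.mp h2)
  have hMp : IsPGroup p M := by
    have h0 : Nat.card M ≠ 0 := Nat.card_pos.ne'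
    exact IsPGroup.of_card
      (Nat.eq_prime_pow_of_unique_prime_dvd h0 (fun {d} hd hdd => key d hd hdd))
  have hmap : M.map f = ⊥ := hQ _ (hM.map f h.surj) (hMp.map f)
  exact (Subgroup.map_eq_bot_iff _).mp hmap


theorem card_comap_div {G Q : Type} [Group G] [Group Q] [Finite G] (g : G →* Q)
    (hg : Function.Surjective g) (K : Subgroup Q) :
    Nat.card (K.comap g) / Nat.card g.ker = Nat.card K := by
  rw [card_div_card (MonoidHom.ker_le_comap g K), relIndex_ker,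
    map_comap_eq_self_of_surjective hg]

theorem card_comap_eq {G Q : Type} [Group G] [Group Q] [Finite G] (g : G →* Q)
    (hg : Function.Surjective g) (K : Subgroup Q) :
    Nat.card (K.comap g) = Nat.card g.ker * Nat.card K := by
  have h1 : (⊥ : Subgroup G).relIndex g.ker * g.ker.relIndex (K.comap g)
      = (⊥ : Subgroup G).relIndex (K.comap g) :=
    relIndex_mul_relIndex ⊥ _ _ bot_le (MonoidHom.ker_le_comap g K)
  rw [relIndex_bot_left, relIndex_bot_left, relIndex_ker,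
    map_comap_eq_self_of_surjective hg] at h1
  exact h1.symm

theorem IsExt.exists_card {p : ℕ} {G Q : Type} [Group G] [Group Q] [Finite G]
    {f : G →* Q} {σ : Q →* G} (h : IsExt p f σ) (hp : p.Prime) :
    ∃ e, Nat.card f.ker = p ^ e := by
  have : Fact p.Prime := ⟨hp⟩
  exact h.pgroup.exists_card_eq

theorem IsExt.card_map {p : ℕ} {G Q : Type} [Group G] [Group Q]
    {f : G →* Q} {σ : Q →* G} (h : IsExt p f σ) (K : Subgroup Q) :
    Nat.card (K.map σ) = Nat.card K := by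
  have hinj : Function.Injective σ := by
    intro x y hxy
    rw [← h.sec x, ← h.sec y, hxy]
  exact (Nat.card_congr (K.equivMapOfInjective σ hinj).toEquiv).symm

theorem IsExt.card_eq {p : ℕ} {G Q : Type} [Group G] [Group Q] [Finite G]
    {f : G →* Q} {σ : Q →* G} (h : IsExt p f σ) :
    Nat.card G = Nat.card f.ker * Nat.card Q := by
  have := card_comap_eq f h.surj ⊤
  simpa using this

theorem IsExt.index_map {p : ℕ} {G Q : Type} [Group G] [Group Q] [Finite G] [Finite Q]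
    {f : G →* Q} {σ : Q →* G} (h : IsExt p f σ) (K : Subgroup Q) :
    (K.map σ).index = Nat.card f.ker * K.index := by
  have h1 : Nat.card (K.map σ) * (K.map σ).index = Nat.card G := card_mul_index _
  have h2 : Nat.card K * K.index = Nat.card Q := card_mul_index _
  rw [h.card_map, h.card_eq, ← h2] at h1
  have h3 : 0 < Nat.card K := Nat.card_pos
  apply Nat.eq_of_mul_eq_mul_left h3
  rw [h1]
  ring


/-- The lower bound: the top of the tower has nilpotent `π`-length at least `4`. -/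
theorem no_series {π : Set ℕ} {p q r s : ℕ} (hp : p.Prime) (hq : q.Prime) (hr : r.Prime)
    (hs : s.Prime) (hpπ : p ∈ π) (hqπ : q ∈ π) (hrπ : r ∉ π) (hsπ : s ∉ π) (hpq : p ≠ q)
    {G₁ G₂ G₃ G₄ G₅ G₆ : Type}
    [Group G₁] [Group G₂] [Group G₃] [Group G₄] [Group G₅] [Group G₆]
    [Finite G₁] [Finite G₂] [Finite G₃] [Finite G₄] [Finite G₅] [Finite G₆]
    {f₂ : G₂ →* G₁} {f₃ : G₃ →* G₂} {f₄ : G₄ →* G₃} {f₅ : G₅ →* G₄} {f₆ : G₆ →* G₅}
    {σ₂ : G₁ →* G₂} {σ₃ : G₂ →* G₃} {σ₄ : G₃ →* G₄} {σ₅ : G₄ →* G₅} {σ₆ : G₅ →* G₆}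
    (h₂ : IsExt r f₂ σ₂) (h₃ : IsExt q f₃ σ₃) (h₄ : IsExt p f₄ σ₄) (h₅ : IsExt s f₅ σ₅)
    (h₆ : IsExt p f₆ σ₆) (h₁ : q ∣ Nat.card G₁) : ¬ HasSeries π G₆ 3 := by
  intro h
  have hsp : s ≠ p := fun h => hsπ (h ▸ hpπ)
  have hrq : r ≠ q := fun h => hrπ (h ▸ hqπ)
  have key : ∀ {l : ℕ} {G Q : Type} [Group G] [Group Q] [Finite G] [Finite Q]
      {f : G →* Q} {σ : Q →* G} (hl : l.Prime) (hlπ : l ∈ π) (h : IsExt l f σ),
      ∀ M : Subgroup G, M.Normal → (∀ q : ℕ, q.Prime → q ∣ Nat.card M → q ∉ π) → M = ⊥ := by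
    intro l G Q _ _ _ _ f σ hl hlπ h M hM hMd
    exact h.trivial_of_not_dvd hl M hM (fun hd => hMd l hl hd hlπ)
  have e5 : HasSeries π G₅ 2 := h.drop f₆ h₆.surj (key hp hpπ h₆)
    (h₆.nilpotent_le hp (h₅.pcore_trivial hs hp hsp)) h₆.nontriv
  have e4 : HasSeries π G₄ 2 := e5.map f₅ h₅.surj
  have e3 : HasSeries π G₃ 1 := e4.drop f₄ h₄.surj (key hp hpπ h₄)
    (h₄.nilpotent_le hp (h₃.pcore_trivial hq hp hpq.symm)) h₄.nontriv
  have e2 : HasSeries π G₂ 0 := e3.drop f₃ h₃.surj (key hq hqπ h₃)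
    (h₃.nilpotent_le hq (h₂.pcore_trivial hr hq hrq)) h₃.nontriv
  apply e2.zero hq hqπ
  rw [h₂.card_eq]
  exact Dvd.dvd.mul_left h₁ _

theorem nilp_of_pgroup {G : Type} [Group G] [Finite G] {p : ℕ} (hp : p.Prime) (L : Subgroup G)
    (hL : IsPGroup p L) : ∃ c : ℕ, (fun K : Subgroup G => ⁅K, L⁆)^[c] L ≤ ⊥ := by
  have : Fact p.Prime := ⟨hp⟩
  have h1 : Group.IsNilpotent L := hL.isNilpotent
  obtain ⟨c, hc⟩ := (isNilpotent_iff_lowerCentralSeries L).mp h1
  exact ⟨c, by rw [iter_eq, hc]⟩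

theorem nilp_of_map {G Q : Type} [Group G] [Group Q] [Finite Q] {p : ℕ} (hp : p.Prime)
    (g : G →* Q) (L : Subgroup G)
    (hL : IsPGroup p (L.map g)) : ∃ c : ℕ, (fun K : Subgroup G => ⁅K, L⁆)^[c] L ≤ g.ker := by
  have : Fact p.Prime := ⟨hp⟩
  have h1 : Group.IsNilpotent (L.map g) := hL.isNilpotent
  obtain ⟨c, hc⟩ := (isNilpotent_iff_lowerCentralSeries (L.map g)).mp h1
  refine ⟨c, ?_⟩
  rw [iter_eq, ← Subgroup.map_eq_bot_iff, map_lowerCentralSeries, hc]

/-- The chain of kernels of a tower of five surjections. -/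
def chain {G₁ G₂ G₃ G₄ G₅ G₆ : Type}
    [Group G₁] [Group G₂] [Group G₃] [Group G₄] [Group G₅] [Group G₆]
    (f₂ : G₂ →* G₁) (f₃ : G₃ →* G₂) (f₄ : G₄ →* G₃) (f₅ : G₅ →* G₄) (f₆ : G₆ →* G₅) :
    ℕ → Subgroup G₆
  | 0 => ⊥
  | 1 => f₆.ker
  | 2 => (f₅.comp f₆).ker
  | 3 => (f₄.comp (f₅.comp f₆)).ker
  | 4 => (f₃.comp (f₄.comp (f₅.comp f₆))).ker
  | 5 => (f₂.comp (f₃.comp (f₄.comp (f₅.comp f₆)))).ker
  | _ => ⊤

/-- The primes attached to the six factors of the chain. -/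
def pr (p q r s : ℕ) : ℕ → ℕ
  | 0 => p
  | 1 => s
  | 2 => p
  | 3 => q
  | 4 => r
  | _ => q

theorem chain_props {p q r s : ℕ} (hp : p.Prime) (hq : q.Prime) (hr : r.Prime)
    (hs : s.Prime) {G₁ G₂ G₃ G₄ G₅ G₆ : Type}
    [Group G₁] [Group G₂] [Group G₃] [Group G₄] [Group G₅] [Group G₆]
    [Finite G₁] [Finite G₂] [Finite G₃] [Finite G₄] [Finite G₅] [Finite G₆]
    {f₂ : G₂ →* G₁} {f₃ : G₃ →* G₂} {f₄ : G₄ →* G₃} {f₅ : G₅ →* G₄} {f₆ : G₆ →* G₅}
    {σ₂ : G₁ →* G₂} {σ₃ : G₂ →* G₃} {σ₄ : G₃ →* G₄} {σ₅ : G₄ →* G₅} {σ₆ : G₅ →* G₆}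
    (h₂ : IsExt r f₂ σ₂) (h₃ : IsExt q f₃ σ₃) (h₄ : IsExt p f₄ σ₄) (h₅ : IsExt s f₅ σ₅)
    (h₆ : IsExt p f₆ σ₆) (h₁ : Nat.card G₁ = q) :
    chain f₂ f₃ f₄ f₅ f₆ 0 = ⊥ ∧ chain f₂ f₃ f₄ f₅ f₆ 6 = ⊤ ∧
    (∀ i ≤ 6, (chain f₂ f₃ f₄ f₅ f₆ i).Normal) ∧
    (∀ i < 6, chain f₂ f₃ f₄ f₅ f₆ i ≤ chain f₂ f₃ f₄ f₅ f₆ (i + 1)) ∧
    (∀ i < 6, ∃ e : ℕ, Nat.card (chain f₂ f₃ f₄ f₅ f₆ (i + 1)) /
      Nat.card (chain f₂ f₃ f₄ f₅ f₆ i) = (pr p q r s i) ^ e) := by
  have s6 := h₆.surj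
  have s5 : Function.Surjective (f₅.comp f₆) := h₅.surj.comp s6
  have s4 : Function.Surjective (f₄.comp (f₅.comp f₆)) := h₄.surj.comp s5
  have s3 : Function.Surjective (f₃.comp (f₄.comp (f₅.comp f₆))) := h₃.surj.comp s4
  have s2 : Function.Surjective (f₂.comp (f₃.comp (f₄.comp (f₅.comp f₆)))) := h₂.surj.comp s3
  refine ⟨rfl, rfl, ?_, ?_, ?_⟩
  · intro i hi
    interval_cases i <;> simp only [chain] <;> infer_instance
  · intro i hi
    interval_cases i <;> simp only [chain]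
    · exact bot_le
    · intro x hx
      rw [MonoidHom.mem_ker] at hx ⊢
      rw [MonoidHom.comp_apply, hx, map_one]
    · intro x hx
      rw [MonoidHom.mem_ker] at hx ⊢
      rw [MonoidHom.comp_apply, hx, map_one]
    · intro x hx
      rw [MonoidHom.mem_ker] at hx ⊢
      rw [MonoidHom.comp_apply, hx, map_one]
    · intro x hx
      rw [MonoidHom.mem_ker] at hx ⊢
      rw [MonoidHom.comp_apply, hx, map_one]
    · exact le_top
  · intro i hi
    interval_cases i <;> simp only [chain, pr]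
    · obtain ⟨e, he⟩ := h₆.exists_card hp
      exact ⟨e, by rw [he, card_bot, Nat.div_one]⟩
    · obtain ⟨e, he⟩ := h₅.exists_card hs
      exact ⟨e, by rw [← he]; exact card_comap_div f₆ s6 f₅.ker⟩
    · obtain ⟨e, he⟩ := h₄.exists_card hp
      exact ⟨e, by rw [← he]; exact card_comap_div _ s5 f₄.ker⟩
    · obtain ⟨e, he⟩ := h₃.exists_card hq
      exact ⟨e, by rw [← he]; exact card_comap_div _ s4 f₃.ker⟩
    · obtain ⟨e, he⟩ := h₂.exists_card hr
      exact ⟨e, by rw [← he]; exact card_comap_div _ s3 f₂.ker⟩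
    · refine ⟨1, ?_⟩
      have := card_comap_div _ s2 (⊤ : Subgroup G₁)
      rw [comap_top] at this
      rw [pow_one, this, card_top, h₁]


/-- The Hall subgroup of the tower. -/
theorem hall_props {p q r s : ℕ} (hp : p.Prime) (hq : q.Prime) (hr : r.Prime)
    (hs : s.Prime) {G₁ G₂ G₃ G₄ G₅ G₆ : Type}
    [Group G₁] [Group G₂] [Group G₃] [Group G₄] [Group G₅] [Group G₆]
    [Finite G₁] [Finite G₂] [Finite G₃] [Finite G₄] [Finite G₅] [Finite G₆]
    {f₂ : G₂ →* G₁} {f₃ : G₃ →* G₂} {f₄ : G₄ →* G₃} {f₅ : G₅ →* G₄} {f₆ : G₆ →* G₅}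
    {σ₂ : G₁ →* G₂} {σ₃ : G₂ →* G₃} {σ₄ : G₃ →* G₄} {σ₅ : G₄ →* G₅} {σ₆ : G₅ →* G₆}
    (h₂ : IsExt r f₂ σ₂) (h₃ : IsExt q f₃ σ₃) (h₄ : IsExt p f₄ σ₄) (h₅ : IsExt s f₅ σ₅)
    (h₆ : IsExt p f₆ σ₆) (h₁ : Nat.card G₁ = q) :
    ∃ H : Subgroup G₆, (∀ l : ℕ, l.Prime → l ∣ Nat.card H → l = p ∨ l = q) ∧
      (∀ l : ℕ, l.Prime → l ∣ H.index → l = r ∨ l = s) ∧
      ∃ t : ℕ → Subgroup H, t 0 = ⊥ ∧ t 2 = ⊤ ∧ (∀ i ≤ 2, (t i).Normal) ∧
        (∀ i < 2, t i ≤ t (i + 1)) ∧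
        ∀ i < 2, ∃ c : ℕ, (fun K : Subgroup H => ⁅K, t (i + 1)⁆)^[c] (t (i + 1)) ≤ t i := by
  have : Fact p.Prime := ⟨hp⟩
  have : Fact q.Prime := ⟨hq⟩
  obtain ⟨e2, he2⟩ := h₂.exists_card hr
  obtain ⟨e3, he3⟩ := h₃.exists_card hq
  obtain ⟨e4, he4⟩ := h₄.exists_card hp
  obtain ⟨e5, he5⟩ := h₅.exists_card hs
  obtain ⟨e6, he6⟩ := h₆.exists_card hp
  -- the Hall subgroups
  obtain ⟨H₂, hH₂c, hH₂i⟩ : ∃ H₂ : Subgroup G₂, Nat.card H₂ = q ∧ H₂.index = r ^ e2 := by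
    refine ⟨(⊤ : Subgroup G₁).map σ₂, ?_, ?_⟩
    · rw [h₂.card_map, card_top, h₁]
    · rw [h₂.index_map, he2, index_top, mul_one]
  obtain ⟨H₃, hH₃c, hH₃i⟩ : ∃ H₃ : Subgroup G₃, Nat.card H₃ = q ^ (e3 + 1) ∧
      H₃.index = r ^ e2 := by
    refine ⟨H₂.comap f₃, ?_, ?_⟩
    · rw [card_comap_eq f₃ h₃.surj, he3, hH₂c, pow_succ]
    · rw [index_comap_of_surjective _ h₃.surj, hH₂i]
  have hc4 : Nat.card (H₃.comap f₄) = p ^ e4 * q ^ (e3 + 1) := by
    rw [card_comap_eq f₄ h₄.surj, he4, hH₃c]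
  have hi4 : (H₃.comap f₄).index = r ^ e2 := by
    rw [index_comap_of_surjective _ h₄.surj, hH₃i]
  have hc5 : Nat.card ((H₃.comap f₄).map σ₅) = p ^ e4 * q ^ (e3 + 1) := by
    rw [h₅.card_map, hc4]
  have hi5 : ((H₃.comap f₄).map σ₅).index = s ^ e5 * r ^ e2 := by
    rw [h₅.index_map, he5, hi4]
  have hc6 : Nat.card (((H₃.comap f₄).map σ₅).comap f₆) = p ^ e6 * (p ^ e4 * q ^ (e3 + 1)) := by
    rw [card_comap_eq f₆ h₆.surj, he6, hc5]
  have hi6 : (((H₃.comap f₄).map σ₅).comap f₆).index = s ^ e5 * r ^ e2 := by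
    rw [index_comap_of_surjective _ h₆.surj, hi5]
  set H : Subgroup G₆ := ((H₃.comap f₄).map σ₅).comap f₆ with hH
  have hH₃p : IsPGroup q H₃ := IsPGroup.of_card hH₃c
  -- the homomorphism to `G₃`
  let g : H →* G₃ := (f₄.comp (f₅.comp f₆)).comp H.subtype
  have hgr : (⊤ : Subgroup H).map g ≤ H₃ := by
    rintro _ ⟨x, -, rfl⟩
    obtain ⟨y, hy, hyx⟩ := x.2
    change f₄ (f₅ (f₆ x)) ∈ H₃
    rw [← hyx, h₅.sec]
    exact hy
  have hkerp : IsPGroup p g.ker := by
    rintro ⟨x, hx⟩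
    obtain ⟨y, hy, hyx⟩ := x.2
    have hx' : f₄ (f₅ (f₆ x)) = 1 := hx
    have h1 : f₄ y = 1 := by
      rw [← h₅.sec y, hyx]
      exact hx'
    obtain ⟨a, ha⟩ := h₄.pgroup ⟨y, h1⟩
    have ha' : y ^ p ^ a = 1 := by
      have := congrArg Subtype.val ha
      simpa using this
    have h2 : f₆ ((x : G₆) ^ p ^ a) = 1 := by
      rw [map_pow, ← hyx, ← map_pow, ha', map_one]
    obtain ⟨b, hb⟩ := h₆.pgroup ⟨(x : G₆) ^ p ^ a, h2⟩
    have hb' : ((x : G₆) ^ p ^ a) ^ p ^ b = 1 := by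
      have := congrArg Subtype.val hb
      simpa using this
    refine ⟨a + b, ?_⟩
    apply Subtype.ext
    apply Subtype.ext
    simp only [Subgroup.coe_pow, Subgroup.coe_one]
    rw [pow_add, pow_mul, hb']
  have hlast : ∀ l : ℕ, l.Prime → ∀ {a b n : ℕ}, l ∣ a ^ n * b → a.Prime → l = a ∨ l ∣ b := by
    intro l hl a b n hd ha
    rcases hl.dvd_mul.mp hd with h | h
    · exact Or.inl ((Nat.prime_dvd_prime_iff_eq hl ha).mp (hl.dvd_of_dvd_pow h))
    · exact Or.inr h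
  refine ⟨H, ?_, ?_, fun i => if i = 0 then ⊥ else if i = 1 then g.ker else ⊤, ?_, ?_, ?_, ?_, ?_⟩
  · intro l hl hd
    rw [hc6] at hd
    rcases hlast l hl hd hp with h | h
    · exact Or.inl h
    rcases hlast l hl h hp with h | h
    · exact Or.inl h
    · exact Or.inr ((Nat.prime_dvd_prime_iff_eq hl hq).mp (hl.dvd_of_dvd_pow h))
  · intro l hl hd
    rw [hi6] at hd
    rcases hlast l hl hd hs with h | h
    · exact Or.inr h
    · exact Or.inl ((Nat.prime_dvd_prime_iff_eq hl hr).mp (hl.dvd_of_dvd_pow h))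
  · simp
  · simp
  · intro i hi
    interval_cases i <;> simp <;> infer_instance
  · intro i hi
    interval_cases i <;> simp
  · intro i hi
    interval_cases i
    · simpa using nilp_of_pgroup hp g.ker hkerp
    · have := nilp_of_map hq g ⊤ (IsPGroup.to_le hH₃p hgr)
      simpa using this

/-- The data of the counterexample: an iterated wreath product. -/
theorem counterexample : ∃ (G : Type) (_ : Group G) (_ : Finite G) (s : ℕ → Subgroup G)
    (H : Subgroup G),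
    s 0 = ⊥ ∧ s 6 = ⊤ ∧ (∀ i ≤ 6, (s i).Normal) ∧ (∀ i < 6, s i ≤ s (i + 1)) ∧
    (∀ i < 6, ∃ e : ℕ, Nat.card (s (i + 1)) / Nat.card (s i) = (pr 2 3 5 5 i) ^ e) ∧
    (∀ l : ℕ, l.Prime → l ∣ Nat.card H → l = 2 ∨ l = 3) ∧
    (∀ l : ℕ, l.Prime → l ∣ H.index → l = 5 ∨ l = 5) ∧
    (∃ t : ℕ → Subgroup H, t 0 = ⊥ ∧ t 2 = ⊤ ∧ (∀ i ≤ 2, (t i).Normal) ∧
        (∀ i < 2, t i ≤ t (i + 1)) ∧
        ∀ i < 2, ∃ c : ℕ, (fun K : Subgroup H => ⁅K, t (i + 1)⁆)^[c] (t (i + 1)) ≤ t i) ∧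
    ¬ HasSeries {2, 3} G 3 := by
  have p2 : Nat.Prime 2 := Nat.prime_two
  have p3 : Nat.Prime 3 := Nat.prime_three
  have p5 : Nat.Prime 5 := Nat.prime_five
  have hc : Nat.card (Multiplicative (ZMod 3)) = 3 := by
    rw [Nat.card_eq_fintype_card]; rfl
  obtain ⟨G₂, _, _, f₂, σ₂, h₂⟩ := exists_ext (Multiplicative (ZMod 3)) 5 p5
  obtain ⟨G₃, _, _, f₃, σ₃, h₃⟩ := exists_ext G₂ 3 p3
  obtain ⟨G₄, _, _, f₄, σ₄, h₄⟩ := exists_ext G₃ 2 p2
  obtain ⟨G₅, _, _, f₅, σ₅, h₅⟩ := exists_ext G₄ 5 p5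
  obtain ⟨G₆, _, _, f₆, σ₆, h₆⟩ := exists_ext G₅ 2 p2
  obtain ⟨c1, c2, c3, c4, c5⟩ := chain_props p2 p3 p5 p5 h₂ h₃ h₄ h₅ h₆ hc
  obtain ⟨H, hH1, hH2, hH3⟩ := hall_props p2 p3 p5 p5 h₂ h₃ h₄ h₅ h₆ hc
  refine ⟨G₆, inferInstance, inferInstance, chain f₂ f₃ f₄ f₅ f₆, H, c1, c2, c3, c4, c5,
    hH1, hH2, hH3, ?_⟩
  exact no_series p2 p3 p5 p5 (by simp) (by simp) (by simp) (by simp) (by norm_num)
    h₂ h₃ h₄ h₅ h₆ (by rw [hc])

end Pool.Agent.H39.PiLength
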